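import Pool.Agent.R847.SG.Fam

/-!
# MP_b15c9e_ag: Dynamical Mordell-Lang for curves and integral points

Let `f = (f_0, …, f_N)` be a polynomial self-map of `𝔸^{N+1}` over `ℤ` of degree `d ≥ 2` whose leading
forms `F = (F_0, …, F_N)` have no common zero in `ℂ^{N+1}` but `0`; so `f` extends to an endomorphism of
`ℙ^{N+1}` (with a totally invariant hyperplane). Let `V` be a closed subset of `𝔸^{N+1}` over `ℂ` of
dimension at most one and let `a ∈ ℤ^{N+1}`.

**Theorem.** If there is no sequence `y_0, y_1, …` of nonzero real vectors with `F(y_{k+1}) = y_k`,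
`y_0` a point at infinity of `V`, and `det DF(y_k) = 0` for infinitely many `k`, then
`{n : f^n(a) ∈ V}` is a finite union of arithmetic progressions.

In particular this holds for all `V` of dimension at most one and all `a ∈ ℤ^{N+1}` if `det DF` has no
real zero but `0`, for example (second part) for the maps
`f_i = x_i^3 + x_i (x_0^2 + … + x_N^2) + g_i` with arbitrary integral polynomials `g_i` of degree at
most two, for all `N`. There is no condition on `V` and `a` in this case.

The proof: if `a` is not preperiodic and the return set is infinite, take the sequence of the points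
`f^n(a)` along an ultrafilter of return times, and their predecessors `f^{n-k}(a)`. The leading
coefficients of the predecessors converge to real algebraic points `y_k` with `F(y_{k+1}) = y_k`, and
if `det DF(y_k)` does not vanish for large `k` then the predecessors have for large `k` expansions of
large order at `y_k` with real algebraic coefficients. By Schmidt's subspace theorem any `2m + 2`
polynomials of degree at most `m` are linearly dependent on the `k`-th predecessors, for
`k ≥ k(m)`. So the points `[y_k]` are defined over a fixed number field of degree at most two, by the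
Northcott property they are periodic, so the expansions and hence the equations of bounded degree of
the `k`-th predecessors are periodic for `k ≥ k(m)`, and this implies that the closures of the sets of
the `k`-th predecessors are periodic.
-/

set_option autoImplicit false

open MvPolynomial

namespace Pool.Agent.R847.Old.IntegralPointsOnCurves

variable {N : ℕ}

/-- The self-map of `ℤ^{N+1}` given by `N + 1` integral polynomials. -/
noncomputable def selfMap (f : Fin (N + 1) → MvPolynomial (Fin (N + 1)) ℤ) (x : Fin (N + 1) → ℤ) :
    Fin (N + 1) → ℤ :=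
  fun i => eval x (f i)

/-- The common zeros of a set of complex polynomials. -/
def zeros (V : Set (MvPolynomial (Fin (N + 1)) ℂ)) : Set (Fin (N + 1) → ℂ) :=
  {z | ∀ g ∈ V, eval z g = 0}

/-- The zero set has dimension at most one: any two coordinates satisfy a polynomial equation. -/
def DimLeOne (V : Set (MvPolynomial (Fin (N + 1)) ℂ)) : Prop :=
  ∀ i j, ∃ P : MvPolynomial (Fin 2) ℂ, P ≠ 0 ∧ ∀ z ∈ zeros V, eval ![z i, z j] P = 0

/-- Polynomials of degree at most `d` whose forms of degree `d` have no common zero but `0`. -/
def Regular (d : ℕ) (f : Fin (N + 1) → MvPolynomial (Fin (N + 1)) ℤ) : Prop :=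
  (∀ i, (f i).totalDegree ≤ d) ∧
    ∀ z : Fin (N + 1) → ℂ, (∀ i, aeval z (homogeneousComponent d (f i)) = 0) → z = 0

/-- The real vectors whose direction is a point at infinity of the zero set: the leading form of each
polynomial vanishing on the zero set vanishes at `y`. -/
def AtInfinity (V : Set (MvPolynomial (Fin (N + 1)) ℂ)) (y : Fin (N + 1) → ℝ) : Prop :=
  ∀ g : MvPolynomial (Fin (N + 1)) ℂ, (∀ z ∈ zeros V, eval z g = 0) →
    eval (fun i => (y i : ℂ)) (homogeneousComponent g.totalDegree g) = 0

/-- The determinant of the matrix of the partial derivatives of the forms of degree `d`. -/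
noncomputable def jacDet (d : ℕ) (f : Fin (N + 1) → MvPolynomial (Fin (N + 1)) ℤ)
    (y : Fin (N + 1) → ℝ) : ℝ :=
  (Matrix.of fun i j => aeval y (pderiv j (homogeneousComponent d (f i)))).det

/-- The return set of the point `a`. -/
def returnSet (f : Fin (N + 1) → MvPolynomial (Fin (N + 1)) ℤ)
    (V : Set (MvPolynomial (Fin (N + 1)) ℂ)) (a : Fin (N + 1) → ℤ) : Set ℕ :=
  {n | (fun i => ((selfMap f)^[n] a i : ℂ)) ∈ zeros V}

/-- A finite union of arithmetic progressions `{a + k n}`, where `k = 0` is allowed. -/
def FiniteUnionAP (A : Set ℕ) : Prop :=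
  ∃ T : Finset (ℕ × ℕ), A = {n : ℕ | ∃ q ∈ T, ∃ m : ℕ, n = q.1 * m + q.2}

/-- **Dynamical Mordell-Lang for curves and integral points.** -/
theorem result :
    (∀ (N d : ℕ) (f : Fin (N + 1) → MvPolynomial (Fin (N + 1)) ℤ), 2 ≤ d → Regular d f →
      ∀ V : Set (MvPolynomial (Fin (N + 1)) ℂ), DimLeOne V →
        (∀ y : ℕ → Fin (N + 1) → ℝ, (∀ k, y k ≠ 0) →
          (∀ k i, aeval (y (k + 1)) (homogeneousComponent d (f i)) = y k i) →
          AtInfinity V (y 0) → {k | jacDet d f (y k) = 0}.Finite) →
        ∀ a : Fin (N + 1) → ℤ, FiniteUnionAP (returnSet f V a)) ∧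
    (∀ (N : ℕ) (g : Fin (N + 1) → MvPolynomial (Fin (N + 1)) ℤ), (∀ i, (g i).totalDegree ≤ 2) →
      Regular 3 (fun i => X i ^ 3 + X i * ∑ j, X j ^ 2 + g i) ∧
      ∀ V : Set (MvPolynomial (Fin (N + 1)) ℂ), DimLeOne V →
        ∀ a : Fin (N + 1) → ℤ,
          FiniteUnionAP (returnSet (fun i => X i ^ 3 + X i * ∑ j, X j ^ 2 + g i) V a)) := by
  refine ⟨fun N d f hd hf V hV hcrit a => ?_, fun N g hg => ⟨⟨fun i => ?_, fun z hz => ?_⟩,
    fun V hV a => ?_⟩⟩
  · exact Pool.Agent.R847.SG.dml_integral d hd f hf.1 hf.2 V hV hcrit
      (fun n => (selfMap f)^[n] a) (fun n i => by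
        simp only [Function.iterate_succ_apply', selfMap]
        rfl)
  · exact Pool.Agent.R847.SG.cub_deg i (g i) (hg i)
  · apply Pool.Agent.R847.SG.cub_reg z
    intro i
    have h1 := hz i
    have h2 := Pool.Agent.R847.SG.cub_top i (g i) (hg i)
    unfold Pool.Agent.R847.SG.cub at h2 ⊢
    rwa [h2] at h1
  · exact Pool.Agent.R847.SG.dml_cub g hg V hV
      (fun n => (selfMap fun i => X i ^ 3 + X i * ∑ j, X j ^ 2 + g i)^[n] a) (fun n i => by
        simp only [Function.iterate_succ_apply', selfMap]
        rfl)

end Pool.Agent.R847.Old.IntegralPointsOnCurves
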